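import Pool.Agent.helper97.IRO.Spec

set_option autoImplicit false

open MeasureTheory Pool.Agent.LOF

namespace Pool.Agent.IRO

theorem CT7 (hCT1 : CT1_stmt) (hHU : HU_stmt) (hCT6 : CT6_stmt) : CT7_stmt := by
  intro G _ P hP hC H c u hc hnc hu hPu
  have hninv : ¬ Cof P H c⁻¹ := fun h => hnc (by have := h.inv; rwa [inv_inv] at this)
  refine ⟨?_, ?_⟩
  · rcases hP.tri' (u * c) with h | h | h
    · exact h
    · exfalso
      have e : c = u⁻¹ := (inv_eq_of_mul_eq_one_right h).symm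
      exact hnc (e ▸ hu.inv)
    · exfalso
      set d : G := c⁻¹ with hd
      have h1 : P (d * u⁻¹) := by
        have e : (u * c)⁻¹ = d * u⁻¹ := by rw [mul_inv_rev]
        rwa [e] at h
      have h2 : P d := by
        have := hP.mul _ _ h1 hPu
        rwa [inv_mul_cancel_right] at this
      have h3 := hCT1 G P hP hC (d * u⁻¹) d h1 h2
      have h4 : P (u⁻¹ * d ^ 2) := by
        have e : d⁻¹ * (d * u⁻¹) * d ^ 2 = u⁻¹ * d ^ 2 := by group
        rwa [e] at h3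
      obtain ⟨K, -, hK⟩ := hHU G P hP hC d h2
      have huK : u ∈ K := (hK u).2 ⟨⟨2, h4⟩, ⟨0, by rwa [pow_zero, mul_one]⟩⟩
      apply hninv
      refine ⟨H.inv_mem hc, fun k hk => ?_⟩
      obtain ⟨n, hn⟩ := hu.2 k hk
      obtain ⟨m, hm⟩ := ((hK (u ^ n)).1 (K.zpow_mem huK n)).1
      refine ⟨(m : ℤ), ?_⟩
      have h5 := hP.mul _ _ hn hm
      have e : k⁻¹ * u ^ n * ((u ^ n)⁻¹ * d ^ m) = k⁻¹ * d ^ (m : ℤ) := by
        rw [zpow_natCast, mul_assoc, mul_inv_cancel_left]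
      rwa [e] at h5
  · have := hCT6 G P hP hC H c⁻¹ u (H.inv_mem hc) hninv hu hPu
    rwa [inv_inv] at this

end Pool.Agent.IRO
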