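import Pool.Agent.helper97.IRO.Spec

set_option autoImplicit false

/-!
# Row GE7: `F` is finitely generated, and its commutator subgroup is given by the germs at `0`, `1`
-/

open MeasureTheory Pool.Agent.LOF

namespace Pool.Agent.IRO

theorem GE7_X0mem : X0 ∈ F := by
  refine ⟨?_, _, ?_, X0_pl⟩
  · intro x hx
    rw [Set.mem_Ioo, not_and_or, not_lt, not_lt] at hx
    rw [X0_apply]
    rcases hx with hx | hx
    · rw [if_pos hx]
    · split_ifs <;> linarith
  · intro b hb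
    simp only [Finset.mem_insert, Finset.mem_singleton] at hb
    rcases hb with rfl | rfl | rfl | rfl
    · simpa using IsDyadic.int 0
    · exact ⟨1, 1, by norm_num⟩
    · exact ⟨3, 2, by norm_num⟩
    · simpa using IsDyadic.int 1

theorem GE7_xxapp (i : ℕ) (x : ℝ) :
    xx i x = X0 (2 ^ i * (x - (1 - 1 / 2 ^ i))) / 2 ^ i + (1 - 1 / 2 ^ i) := rfl

theorem GE7_dyadic (i : ℕ) : IsDyadic (1 - 1 / 2 ^ i) := by
  have h1 : IsDyadic ((1 : ℝ) / 2 ^ i) := ⟨1, i, by push_cast; rfl⟩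
  have h2 := (IsDyadic.int 1).sub h1
  push_cast at h2
  exact h2

theorem GE7_xxF (i : ℕ) : xx i ∈ F := by
  have hm : (0:ℝ) < 2 ^ i := by positivity
  have hm1 : (1:ℝ) ≤ 2 ^ i := one_le_pow₀ (by norm_num)
  refine ⟨fun x hx => ?_, _, ?_,
    ((Aff_pl i (1 - 1 / 2 ^ i)).inv).mul (X0_pl.mul (Aff_pl i (1 - 1 / 2 ^ i)))⟩
  · have e1 : (2:ℝ) ^ i * (x - (1 - 1 / 2 ^ i)) = 2 ^ i * (x - 1) + 1 := by
      field_simp
      ring
    have e2 : (2 ^ i * (x - 1) + 1) / 2 ^ i + (1 - 1 / 2 ^ i) = x := by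
      field_simp
      ring
    rw [Set.mem_Ioo, not_and_or, not_lt, not_lt] at hx
    rw [GE7_xxapp, e1]
    have e3 : X0 (2 ^ i * (x - 1) + 1) = 2 ^ i * (x - 1) + 1 := by
      rw [X0_apply]
      rcases hx with hx | hx
      · rw [if_pos]
        nlinarith
      · have : 0 ≤ 2 ^ i * (x - 1) := mul_nonneg hm.le (by linarith)
        split_ifs <;> linarith
    rw [e3, e2]
  · have hd1 : ∀ t, IsDyadic t → IsDyadic (((Aff i (1 - 1 / 2 ^ i))⁻¹ : ℝ ≃o ℝ) t) := by
      intro t ht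
      rw [Aff_inv_apply]
      have : t / 2 ^ i = 2 ^ (-(i:ℤ)) * t := by
        rw [zpow_neg, zpow_natCast]; field_simp
      rw [this]
      exact (ht.pow_mul _).add (GE7_dyadic i)
    intro b hb
    rw [Finset.mem_union] at hb
    rcases hb with hb | hb
    · rw [Finset.mem_union] at hb
      rcases hb with hb | hb
      · simp at hb
      · rw [Finset.mem_image] at hb
        obtain ⟨c, hc, rfl⟩ := hb
        refine hd1 _ ?_
        simp only [Finset.mem_insert, Finset.mem_singleton] at hc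
        rcases hc with rfl | rfl | rfl | rfl
        · simpa using IsDyadic.int 0
        · exact ⟨1, 1, by norm_num⟩
        · exact ⟨3, 2, by norm_num⟩
        · simpa using IsDyadic.int 1
    · simp at hb

/-! ### germs of the generators -/

theorem GE7_X0R : gR X0 0 (-1) := by
  refine ⟨1 / 2, by norm_num, fun z h0 h1 => ?_⟩
  have e : (2:ℝ) ^ (-1:ℤ) = 1/2 := by norm_num
  rw [X0_apply, e]
  split_ifs <;> linarith

theorem GE7_X0L : gL X0 1 1 := by
  refine ⟨3 / 4, by norm_num, fun z h0 h1 => ?_⟩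
  have e : (2:ℝ) ^ (1:ℤ) = 2 := by norm_num
  rw [X0_apply, e]
  split_ifs <;> linarith

theorem GE7_x1R : gR (xx 1) 0 0 := by
  refine ⟨1 / 2, by norm_num, fun z h0 h1 => ?_⟩
  rw [GE7_xxapp, X0_apply, zpow_zero]
  split_ifs <;> linarith

theorem GE7_x1L : gL (xx 1) 1 1 := by
  refine ⟨7 / 8, by norm_num, fun z h0 h1 => ?_⟩
  have e : (2:ℝ) ^ (1:ℤ) = 2 := by norm_num
  rw [GE7_xxapp, X0_apply, e]
  split_ifs <;> linarith

theorem GE7_fix0 (g : F) : g.1 0 = 0 := F.out g.2 (by simp)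

theorem GE7_fix1 (g : F) : g.1 1 = 1 := F.out g.2 (by simp)

/-- the exponent of the germ at `1` -/
noncomputable def GE7_L (hG1 : G1_stmt) (hG2 : G2_stmt) : F →* Multiplicative ℤ where
  toFun g := Multiplicative.ofAdd (Classical.choose (hG1 g 1 (GE7_fix1 g)).1.exists)
  map_one' := by
    have h := (hG1 1 1 (GE7_fix1 1)).1.unique
      (Classical.choose_spec (hG1 1 1 (GE7_fix1 1)).1.exists)
      (y₂ := 0) ⟨0, one_pos, fun z _ _ => by
        show z = _
        rw [zpow_zero]; ring⟩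
    rw [h]; rfl
  map_mul' := by
    intro g h
    have h1 := Classical.choose_spec (hG1 g 1 (GE7_fix1 g)).1.exists
    have h2 := Classical.choose_spec (hG1 h 1 (GE7_fix1 h)).1.exists
    have h3 := (hG2 g.1 h.1 1 _ _).1 h1 h2
    have h4 := (hG1 (g * h) 1 (GE7_fix1 (g * h))).1.unique
      (Classical.choose_spec (hG1 (g * h) 1 (GE7_fix1 (g * h))).1.exists) h3
    rw [h4, ofAdd_add]

/-- the exponent of the germ at `0` -/
noncomputable def GE7_R (hG1 : G1_stmt) (hG2 : G2_stmt) : F →* Multiplicative ℤ where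
  toFun g := Multiplicative.ofAdd (Classical.choose (hG1 g 0 (GE7_fix0 g)).2.exists)
  map_one' := by
    have h := (hG1 1 0 (GE7_fix0 1)).2.unique
      (Classical.choose_spec (hG1 1 0 (GE7_fix0 1)).2.exists)
      (y₂ := 0) ⟨1, one_pos, fun z _ _ => by
        show z = _
        rw [zpow_zero]; ring⟩
    rw [h]; rfl
  map_mul' := by
    intro g h
    have h1 := Classical.choose_spec (hG1 g 0 (GE7_fix0 g)).2.exists
    have h2 := Classical.choose_spec (hG1 h 0 (GE7_fix0 h)).2.exists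
    have h3 := (hG2 g.1 h.1 0 _ _).2.2.1 h1 h2
    have h4 := (hG1 (g * h) 0 (GE7_fix0 (g * h))).2.unique
      (Classical.choose_spec (hG1 (g * h) 0 (GE7_fix0 (g * h))).2.exists) h3
    rw [h4, ofAdd_add]

theorem GE7_Leq (hG1 : G1_stmt) (hG2 : G2_stmt) (g : F) (k : ℤ) (h : gL g.1 1 k) :
    GE7_L hG1 hG2 g = Multiplicative.ofAdd k :=
  congrArg Multiplicative.ofAdd ((hG1 g 1 (GE7_fix1 g)).1.unique
    (Classical.choose_spec (hG1 g 1 (GE7_fix1 g)).1.exists) h)

theorem GE7_Req (hG1 : G1_stmt) (hG2 : G2_stmt) (g : F) (k : ℤ) (h : gR g.1 0 k) :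
    GE7_R hG1 hG2 g = Multiplicative.ofAdd k :=
  congrArg Multiplicative.ofAdd ((hG1 g 0 (GE7_fix0 g)).2.unique
    (Classical.choose_spec (hG1 g 0 (GE7_fix0 g)).2.exists) h)

theorem GE7_gen (hGE6 : GE6_stmt) :
    Subgroup.closure {(⟨X0, GE7_X0mem⟩ : F), ⟨xx 1, GE7_xxF 1⟩} = ⊤ := by
  rw [eq_top_iff]
  intro g _
  have h1 := hGE6 g.1 g.2
  have h2 : (Subgroup.closure {(⟨X0, GE7_X0mem⟩ : F), ⟨xx 1, GE7_xxF 1⟩}).map F.subtype =
      Subgroup.closure {X0, xx 1} := by
    rw [MonoidHom.map_closure, Set.image_pair]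
    rfl
  rw [← h2, Subgroup.mem_map] at h1
  obtain ⟨k, hk, hk'⟩ := h1
  have : k = g := Subtype.ext hk'
  rwa [this] at hk

theorem GE7 (hGE6 : GE6_stmt) (hG1 : G1_stmt) (hG2 : G2_stmt) : GE7_stmt := by
  set x : F := ⟨X0, GE7_X0mem⟩ with hx
  set y : F := ⟨xx 1, GE7_xxF 1⟩ with hy
  have hgen : Subgroup.closure {x, y} = (⊤ : Subgroup F) := GE7_gen hGE6
  refine ⟨?_, ?_⟩
  · rw [← hgen, Subgroup.fg_iff]
    exact ⟨{x, y}, rfl, Set.toFinite _⟩
  · have key : ∀ g : F, ∃ m n : ℤ, Abelianization.of g =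
        Abelianization.of x ^ m * Abelianization.of y ^ n := by
      intro g
      have hg : g ∈ Subgroup.closure {x, y} := by rw [hgen]; trivial
      induction hg using Subgroup.closure_induction with
      | mem z hz =>
        rcases hz with rfl | hz
        · exact ⟨1, 0, by simp⟩
        · rw [Set.mem_singleton_iff] at hz
          rw [hz]
          exact ⟨0, 1, by simp⟩
      | one => exact ⟨0, 0, by simp⟩
      | mul a b _ _ ha hb =>
        obtain ⟨m, n, h1⟩ := ha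
        obtain ⟨m', n', h2⟩ := hb
        refine ⟨m + m', n + n', ?_⟩
        rw [map_mul, h1, h2, zpow_add, zpow_add]
        exact mul_mul_mul_comm _ _ _ _
      | inv a _ ha =>
        obtain ⟨m, n, h1⟩ := ha
        refine ⟨-m, -n, ?_⟩
        rw [map_inv, h1, zpow_neg, zpow_neg, mul_inv]
    intro g hR hL
    obtain ⟨m, n, h⟩ := key g
    have lift : ∀ φ : F →* Multiplicative ℤ, φ g = φ x ^ m * φ y ^ n := by
      intro φ
      have e := congrArg (Abelianization.lift φ) h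
      rwa [map_mul, map_zpow, map_zpow, Abelianization.lift_apply_of,
        Abelianization.lift_apply_of, Abelianization.lift_apply_of] at e
    have e1 := lift (GE7_R hG1 hG2)
    rw [GE7_Req hG1 hG2 g 0 hR, GE7_Req hG1 hG2 x (-1) GE7_X0R,
      GE7_Req hG1 hG2 y 0 GE7_x1R] at e1
    have e2 := lift (GE7_L hG1 hG2)
    rw [GE7_Leq hG1 hG2 g 0 hL, GE7_Leq hG1 hG2 x 1 GE7_X0L,
      GE7_Leq hG1 hG2 y 1 GE7_x1L] at e2
    rw [← ofAdd_zsmul, ← ofAdd_zsmul, ← ofAdd_add, Multiplicative.ofAdd.injective.eq_iff] at e1 e2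
    simp only [smul_eq_mul] at e1 e2
    have hm : m = 0 := by omega
    have hn : n = 0 := by omega
    rw [hm, hn, zpow_zero, zpow_zero, one_mul] at h
    exact (QuotientGroup.eq_one_iff g).1 h

end Pool.Agent.IRO
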